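import Pool.Agent.H61.AR.Targets
import Pool.Agent.H60.CM.Basic

/-!
# Row DSM: the density of a point of the space
-/

set_option autoImplicit false

open Set Function MeasureTheory Filter Topology
open scoped Manifold ContDiff Matrix

namespace Pool.Agent.H1.ARQ

open Pool.Agent.H60.CM Pool.Agent.H61.AR

theorem sqd_nonneg (y c : V3) : 0 ≤ sqd y c := by
  unfold sqd
  rw [Matrix.vec3_dotProduct]
  have := mul_self_nonneg ((y - c) 0)
  have := mul_self_nonneg ((y - c) 1)
  have := mul_self_nonneg ((y - c) 2)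
  linarith

theorem gg_cont (D : Dat) (c : V3) {ε : ℝ} (hε : 0 < ε) :
    Continuous fun q : D.S => ε ^ 2 * ph D c ε q ^ 2 := by
  have hx : Continuous D.x := Dat.Sm.cont D D.smx
  have h1 : Continuous fun q : D.S => sqd (D.x q) c + ε ^ 2 := by
    unfold sqd
    have h2 : Continuous fun q : D.S => D.x q - c := hx.sub continuous_const
    exact (h2.dotProduct h2).add continuous_const
  have h3 : ∀ q : D.S, sqd (D.x q) c + ε ^ 2 ≠ 0 := by
    intro q
    have := sqd_nonneg (D.x q) c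
    positivity
  unfold ph
  exact continuous_const.mul ((continuous_const.div h1 h3).pow 2)

theorem gen (D : Dat) (c : V3) (G : Finset D.S) (j : D.S → ℝ)
    (h : ∀ p ∈ G, ∀ (U : Set D.S) (η : ℝ), IsOpen U → p ∈ U → 0 < η →
      ∀ᶠ ε in 𝓝[>] (0 : ℝ), j p - η ≤ ∫ q in D.int ∩ U, ε ^ 2 * ph D c ε q ^ 2 ∂D.μ)
    (η : ℝ) (hη : 0 < η) :
    ∀ᶠ ε in 𝓝[>] (0 : ℝ), ∑ p ∈ G, j p - η ≤ ∫ q in D.int, ε ^ 2 * ph D c ε q ^ 2 ∂D.μ := by
  classical
  obtain ⟨U, hU, hdis⟩ := Set.Finite.t2_separation (G.finite_toSet)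
  obtain ⟨η', hη'⟩ : ∃ η' : ℝ, η' = η / (G.card + 1) := ⟨_, rfl⟩
  have hc : (0 : ℝ) < G.card + 1 := by positivity
  have hη'0 : 0 < η' := by
    rw [hη']
    positivity
  have h1 : ∀ᶠ ε in 𝓝[>] (0 : ℝ), ∀ p ∈ G,
      j p - η' ≤ ∫ q in D.int ∩ U p, ε ^ 2 * ph D c ε q ^ 2 ∂D.μ := by
    rw [Filter.eventually_all_finset]
    intro p hp
    exact h p hp (U p) η' (hU p).2 (hU p).1 hη'0
  filter_upwards [h1, self_mem_nhdsWithin] with ε h2 hε
  have hε0 : (0 : ℝ) < ε := hε
  have hint : Integrable (fun q : D.S => ε ^ 2 * ph D c ε q ^ 2) D.μ :=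
    D.cont_int (gg_cont D c hε0)
  have h3 : ∑ p ∈ G, ∫ q in D.int ∩ U p, ε ^ 2 * ph D c ε q ^ 2 ∂D.μ =
      ∫ q in ⋃ p ∈ G, D.int ∩ U p, ε ^ 2 * ph D c ε q ^ 2 ∂D.μ := by
    symm
    apply integral_biUnion_finset
    · intro p _
      exact (D.int_open.inter (hU p).2).measurableSet
    · intro p hp p' hp' hne
      exact (hdis hp hp' hne).mono Set.inter_subset_right Set.inter_subset_right
    · intro p _
      exact hint.integrableOn
  have h4 : ∫ q in ⋃ p ∈ G, D.int ∩ U p, ε ^ 2 * ph D c ε q ^ 2 ∂D.μ ≤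
      ∫ q in D.int, ε ^ 2 * ph D c ε q ^ 2 ∂D.μ := by
    apply setIntegral_mono_set hint.integrableOn
    · exact Eventually.of_forall fun q => by positivity
    · apply HasSubset.Subset.eventuallyLE
      exact iUnion₂_subset fun p _ => inter_subset_left
  have h5 : ∑ p ∈ G, (j p - η') ≤
      ∑ p ∈ G, ∫ q in D.int ∩ U p, ε ^ 2 * ph D c ε q ^ 2 ∂D.μ := Finset.sum_le_sum h2
  rw [Finset.sum_sub_distrib, Finset.sum_const, nsmul_eq_mul] at h5
  have h6 : (G.card : ℝ) * η' ≤ η := by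
    rw [hη', mul_div_assoc', div_le_iff₀ hc]
    nlinarith
  linarith

theorem pf_DSM (h1 : T_DIN) (h2 : T_DBD) : T_DSM := by
  classical
  intro D c F η hη hFc hFi
  constructor
  · have h3 := gen D c F (fun _ => Real.pi) (fun p hp U η' hU hpU hη' => by
      rw [← hFc p hp]
      exact h1 D p U η' (hFi p hp) hU hpU hη') η hη
    simp only [Finset.sum_const, nsmul_eq_mul] at h3
    filter_upwards [h3] with ε h4
    linarith
  · intro hc
    obtain ⟨b, hb, hbc⟩ := D.cmc.circle.surjOn hc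
    have hbd : b ∈ D.bd := hb
    have hbF : b ∉ F := fun h => (D.not_int.2 hbd) (hFi b h)
    have h3 := gen D c (insert b F) (fun p => if p = b then Real.pi / 2 else Real.pi)
      (fun p hp U η' hU hpU hη' => by
        rcases Finset.mem_insert.1 hp with rfl | hp
        · simp only [if_true]
          rw [← hbc]
          exact h2 D p U η' hbd hU hpU hη'
        · have hne : p ≠ b := fun h => hbF (h ▸ hp)
          simp only [if_neg hne]
          rw [← hFc p hp]
          exact h1 D p U η' (hFi p hp) hU hpU hη') η hη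
    have h4 : ∑ p ∈ insert b F, (if p = b then Real.pi / 2 else Real.pi) =
        Real.pi * F.card + Real.pi / 2 := by
      rw [Finset.sum_insert hbF, if_pos rfl]
      have h5 : ∑ p ∈ F, (if p = b then Real.pi / 2 else Real.pi) = ∑ p ∈ F, Real.pi :=
        Finset.sum_congr rfl fun p hp => if_neg fun h : p = b => hbF (h ▸ hp)
      rw [h5, Finset.sum_const, nsmul_eq_mul]
      ring
    rw [h4] at h3
    exact h3

end Pool.Agent.H1.ARQ
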